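import Pool.Agent.helper69.SN.Defs

/-!
# Block A: algebra of the MAP cones (rows sn:a..)

`Ph B M = ∏ (1 + ∂_{B i}) det M`, `GG B` the cone.  Base: the abstract Garding theory of helper44
(Pool/Agent/helper44/SC/Gard*.lean).  All matrices `B i` are positive semidefinite.
In the comments `P(M,lam) = Ph (sc lam B) M` is the homogeneous polynomial of degree `m` in
`(M,lam)` and `PP` its closed cone (w.r.t. the direction `(1,0)`).
-/

open scoped Pointwise ContDiff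
open MeasureTheory Set Filter Topology

set_option linter.unusedVariables false

namespace Pool.Agent.helper69.SN

open Pool.Agent.helper83.SC

/-- aREC. Recursion: `Ph B M = Ph (B with B k = 0) M + ∂_{B k} Ph (B with B k = 0) M`.
Split the subsets `T` into those without and with `k`; `mD` is symmetric (`mD_perm`), so the place of
`B k` among the slots is irrelevant. -/
def aREC_stmt : Prop := ∀ {m n : ℕ} (B : Fin n → Mat m) (k : Fin n) (M : Mat m),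
  Ph B M = Ph (Function.update B k 0) M + dPh (Function.update B k 0) 1 (B k) M

/-- aDER. Derivatives: multilinearity and symmetry of `mD`. -/
def aDER_stmt : Prop := ∀ {m n : ℕ} (B : Fin n → Mat m) (A M : Mat m) (r : ℕ) (s : ℝ),
  HasDerivAt (fun s : ℝ => dPh B r A (M + s • A)) (dPh B (r + 1) A (M + s • A)) s ∧
  dPh B 0 A M = Ph B M

/-- aCNT. Joint continuity (finite sums of determinants). -/
def aCNT_stmt : Prop := ∀ {m n : ℕ} (r : ℕ),
  Continuous (fun p : (Fin n → Mat m) × Mat m × Mat m => dPh p.1 r p.2.1 p.2.2) ∧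
  Continuous (fun p : (Fin n → Mat m) × Mat m => Ph p.1 p.2)

/-- aHOM. Homogeneity. -/
def aHOM_stmt : Prop := ∀ {m n : ℕ} (B : Fin n → Mat m) (A M : Mat m) (t : ℝ) (r : ℕ),
  Ph (sc (fun _ => t) B) (t • M) = t ^ m * Ph B M ∧
  dPh (sc (fun _ => t) B) r (t • A) (t • M) = t ^ m * dPh B r A M

/-- aCNJ. Covariance under congruence: `mD (g M_j gᵀ) = det g ^ 2 mD M` (polarize
`det (g M gᵀ) = det g ^ 2 det M` with `mD_polar`). -/
def aCNJ_stmt : Prop := ∀ {m n : ℕ} (B : Fin n → Mat m) (g M : Mat m),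
  Ph (fun i => g * B i * g.transpose) (g * M * g.transpose) = g.det ^ 2 * Ph B M

/-- aZER. If at most `k < m` of the matrices are nonzero then `Ph B 0 = 0`. -/
def aZER_stmt : Prop := ∀ {m n : ℕ} (B : Fin n → Mat m) (S : Finset (Fin n)),
  S.card < m → (∀ i, i ∉ S → B i = 0) → Ph B 0 = 0

/-- aALL. `Ph B 0` for `m` matrices is `m! mD B` (all other terms have a zero matrix in a slot). -/
def aALL_stmt : Prop := ∀ {m : ℕ} (B : Fin m → Mat m), Ph B 0 = (m.factorial : ℝ) * mD B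

/-- aHYP (main row, A1). Real rootedness and the cone. For positive semidefinite `B`, symmetric `M`
and positive definite `P` the polynomial `t ↦ Ph (sc lam B) (M + t P)` has only real roots, for all
real weights `lam`: its complex values at nonreal `t` do not vanish. Formulated as a factorization.
Proof: stability in `(Z, lam)` by induction on the index set: `P_k = P_(k-1) + lam_k ∂_{B k}P_(k-1)`
(aREC), `g(s) = P_(k-1)(Z + s B k)` has no zero with `Im s ≥ 0`, so `g'(0)/g(0) = - ∑ 1/s_j` has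
negative imaginary part (or `g` is constant) and `1 + lam_k g'(0)/g(0) ≠ 0` for `Im lam_k ≥ 0`. -/
def aHYP_stmt : Prop := ∀ {m n : ℕ} (B : Fin n → Mat m), Psd B → ∀ (lam : Fin n → ℝ) (M P : Mat m),
  M.IsSymm → P.PosDef → ∃ rt : Fin m → ℝ, ∀ t : ℝ,
    Ph (sc lam B) (M + t • P) = P.det * ∏ l, (t - rt l)

/-- aEQV. The cone does not depend on the direction: `M ∈ GG B` as soon as there is no zero of
`t ↦ Ph B (M + t P)` for `t > 0`, `P` positive definite. And conversely. -/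
def aEQV_stmt : Prop := ∀ {m n : ℕ} (B : Fin n → Mat m), Psd B → ∀ (M P : Mat m), M.IsSymm →
  P.PosDef → (M ∈ GG B ↔ ∀ t : ℝ, 0 < t → 0 < Ph B (M + t • P))

/-- aPSD. Positive semidefinite matrices are in the cone (all terms of `Ph B (M + t)` are `≥ 0`, the
term `T = ∅` is `det (M + t) ≥ t ^ m`). -/
def aPSD_stmt : Prop := ∀ {m n : ℕ} (B : Fin n → Mat m), Psd B → ∀ M : Mat m, M.PosSemidef →
  M ∈ GG B

/-- aSUP (main row, A2). `PP` is a convex cone and `P` is superadditive on it. -/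
def aSUP_stmt : Prop := ∀ {m n : ℕ} (B : Fin n → Mat m), Psd B → ∀ (lam mu : Fin n → ℝ),
  (∀ i, 0 ≤ lam i) → (∀ i, 0 ≤ mu i) → ∀ M N : Mat m, M ∈ GG (sc lam B) → N ∈ GG (sc mu B) →
  M + N ∈ GG (sc (fun i => lam i + mu i) B) ∧
    Ph (sc lam B) M ≤ Ph (sc (fun i => lam i + mu i) B) (M + N)

/-- aDNN. All the derivatives are nonnegative on the cone in positive semidefinite directions
(Garding, `Gam.der_pos`, and limits), and `Ph B (M + A) ≥ Ph B M + ∂_A Ph B M`. -/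
def aDNN_stmt : Prop := ∀ {m n : ℕ} (B : Fin n → Mat m), Psd B → ∀ A M : Mat m, A.PosSemidef →
  M ∈ GG B → (∀ r, 0 ≤ dPh B r A M) ∧ Ph B M + dPh B 1 A M ≤ Ph B (M + A)

/-- aCLO. Consequences of aSUP, aPSD: `GG B` is convex; adding positive semidefinite matrices;
larger weights; scaling; closed jointly. -/
def aCLO_stmt : Prop := ∀ {m n : ℕ} (B : Fin n → Mat m), Psd B →
  Convex ℝ (GG B) ∧
  (∀ M A : Mat m, M ∈ GG B → A.PosSemidef → M + A ∈ GG B) ∧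
  (∀ M ∈ GG B, 0 ≤ Ph B M) ∧
  (∀ lam mu : Fin n → ℝ, (∀ i, 0 ≤ lam i) → (∀ i, lam i ≤ mu i) → GG (sc lam B) ⊆ GG (sc mu B)) ∧
  (∀ (c : ℝ) (M : Mat m), 0 ≤ c → M ∈ GG B → c • M ∈ GG (sc (fun _ => c) B)) ∧
  (∀ (c : ℝ) (M : Mat m), 0 ≤ c → c ≤ 1 → M ∈ GG B → c • M ∈ GG B) ∧
  (∀ (L : ℝ) (M : Mat m), 1 ≤ L → M ∈ GG B → Ph B M ≤ L ^ m * Ph B (L⁻¹ • M))

/-- aCL2. Joint closedness (`t ^ m ≤ Ph` is a closed condition). -/
def aCL2_stmt : Prop := ∀ {m n : ℕ},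
  IsClosed {p : (Fin n → Mat m) × Mat m | p.2 ∈ GG p.1}

/-- aBAR (main row, A3). The barrier: `M ∈ GG B → M + B k ∈ GG (B with B k = 0)`.
For `t > 0` let `f(s) = Ph (B with B k = 0) (M + t + s B k)`; `f` has only real roots and
`f + f' = Ph B (M + t + s B k) > 0` for `s ≥ 0`.  If the largest root `r₁` of `f` were `≥ 1`, then
between `max (r₂, 0)` and `r₁` the function `f'/f = ∑ 1/(s - r_l)` takes the value `-1` (at `r₁-`
it is `-∞`; at `r₂+` it is `+∞`, or, if `r₂ ≤ 0`, at `0+` it is `≥ -1/r₁ ≥ -1`, treat `r₁ = 1`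
by the strict sign at `s = 0`). So `f(1) ≠ 0`, and `f(1) > 0` for large `t`, hence for all `t > 0`. -/
def aBAR_stmt : Prop := ∀ {m n : ℕ} (B : Fin n → Mat m), Psd B → ∀ (k : Fin n) (M : Mat m),
  M ∈ GG B → M + B k ∈ GG (Function.update B k 0)

/-- aBSM. Iterate: `M + ∑ i ∈ J, B i ∈ GG (B off J)` and `M + ∑ B i` is positive semidefinite. -/
def aBSM_stmt : Prop := ∀ {m n : ℕ} (B : Fin n → Mat m), Psd B → ∀ M : Mat m, M ∈ GG B →
  (∀ J : Finset (Fin n), M + ∑ i ∈ J, B i ∈ GG (fun i => if i ∈ J then 0 else B i)) ∧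
  (M + ∑ i, B i).PosSemidef

/-- aTAY (main row, A4). `S, J` disjoint, `M₀ = M - s ∑_J A j ∈ GG [K A_S, s A_J]`:
`Ph [K A_S] M ≤ Ph [K A_S, s A_J] M₀ + 1/2 ∑_J s² ∂_{A j}² Ph [K A_S] M`.
One index `q = Ph (off)`, `B = s A j`: `q(M) = (1 + ∂_B) q(M - B) + ∫₀¹ la ∂_B² q(M - la B) dla`, and
`∂_B² q(M - la B)` is nonincreasing in `la ∈ [0,1]`: `(M - la B, la) ∈ PP` of `q + la ∂_B q` (convexity,
`M ∈ GG (off)` by aBAR) and `∂_B³ q = ∂_B² ∂_la P ≥ 0` there.  Iterate over `J`: the operators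
`E_j r = (1 + ∂_{B j}) r (· - B j)` commute and `E_j r ≤ r` at the relevant points for `r = ∂_{B i}² q`. -/
def aTAY_stmt : Prop := ∀ {m n : ℕ} (A : Fin n → Mat m), Psd A → ∀ (S J : Finset (Fin n)),
  Disjoint S J → ∀ (K s : ℝ), 0 ≤ K → 0 ≤ s → ∀ M : Mat m,
  M - s • ∑ j ∈ J, A j ∈ GG (sc (wt S K J s) A) →
  Ph (sc (wt S K ∅ 0) A) M ≤ Ph (sc (wt S K J s) A) (M - s • ∑ j ∈ J, A j)
    + 1 / 2 * ∑ j ∈ J, s ^ 2 * dPh (sc (wt S K ∅ 0) A) 2 (A j) M

/-- aNXT (A5). `∂_{A j}² Ph [K A_S] ≤ K⁻¹ ∂_{A j} Ph [K A_(S+j)] ≤ K⁻¹ Ph [K A_(S+j)] (M + A j)`. -/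
def aNXT_stmt : Prop := ∀ {m n : ℕ} (A : Fin n → Mat m), Psd A → ∀ (S : Finset (Fin n)) (j : Fin n),
  j ∉ S → ∀ K : ℝ, 0 < K → ∀ M ∈ GG (sc (wt S K ∅ 0) A),
  dPh (sc (wt S K ∅ 0) A) 2 (A j) M ≤ K⁻¹ * Ph (sc (wt (insert j S) K ∅ 0) A) (M + A j)

/-- aMAX (A6). The maximum principle: no negative definite matrix in `GG [K A_S]`, `|S| < m`. -/
def aMAX_stmt : Prop := ∀ {m n : ℕ} (A : Fin n → Mat m), Psd A → ∀ (S : Finset (Fin n)), S.card < m →
  ∀ (K c : ℝ), 0 < c → -(c • (1 : Mat m)) ∉ GG (sc (wt S K ∅ 0) A)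

/-- aCNG. The cone and congruence (aCNJ, aEQV). -/
def aCNG_stmt : Prop := ∀ {m n : ℕ} (B : Fin n → Mat m), Psd B → ∀ (g M : Mat m), g.det ≠ 0 →
  M ∈ GG B → g * M * g.transpose ∈ GG (fun i => g * B i * g.transpose)

/-- aSML (A8). Near the boundary of the cone `Ph` is small: with the factorization of aHYP at `P = 1`,
all roots are `≤ 0` and one is `> -s`; `Ph ≤ s ∂_1 Ph`; and `∂_1 Ph B (N - ∑ B + c)` is a sum of mixed
discriminants each at most `C mD (1, N + 1, …, N + 1)` (mD_mono after splitting signs). -/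
def aSML_stmt : Prop := ∀ {m n : ℕ} (b : ℝ), 0 ≤ b → ∃ C : ℝ, 0 ≤ C ∧ ∀ (B : Fin n → Mat m),
  Psd B → Le B b → ∀ (N : Mat m), N.PosSemidef → ∀ (c s : ℝ), 0 ≤ c → c ≤ 1 → 0 < s →
  N - ∑ i, B i + c • (1 : Mat m) ∈ GG B → N - ∑ i, B i + (c - s) • (1 : Mat m) ∉ GG B →
  Ph B (N - ∑ i, B i + c • (1 : Mat m)) ≤
    s * C * mD (fun j : Fin m => if (j : ℕ) = 0 then (1 : Mat m) else N + 1)

/-- aPBD. Bounded perturbation (compactness; use aCL2 and that `0 < Ph B (M + t)` for `t > 0`):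
everything bounded by `b`. -/
def aPBD_stmt : Prop := ∀ {m n : ℕ} (b δ : ℝ), 0 < δ → ∃ η : ℝ, 0 < η ∧
  ∀ (B B' : Fin n → Mat m) (M : Mat m), Psd B → Psd B' → Le B b → Le B' b → M.IsSymm →
  (∀ i j, |M i j| ≤ b) → (∀ k i j, |B k i j - B' k i j| ≤ η) → M + η • (1 : Mat m) ∈ GG B →
  M + δ • (1 : Mat m) ∈ GG B'

/-- aPER (A9). Relative perturbation. Congruence with `g = (1 + N)^(-1/2)` (aCNG), aPBD, back, and
divide by `1 + δ'` (`GG` is a slice of the cone `PP`: `(M, 1) ∈ PP` gives `(M/(1+δ'), 1) ∈ PP`). -/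
def aPER_stmt : Prop := ∀ {m n : ℕ} (b δ : ℝ), 0 ≤ b → 0 < δ → ∃ η : ℝ, 0 < η ∧
  ∀ (B B' : Fin n → Mat m) (N : Mat m), Psd B → Psd B' → Le B b → Le B' b → N.PosSemidef →
  (∀ i, (η • (1 + N) - (B i - B' i)).PosSemidef) → (∀ i, (η • (1 + N) - (B' i - B i)).PosSemidef) →
  N - ∑ i, B i + η • (1 : Mat m) ∈ GG B → N - ∑ i, B' i + δ • (1 : Mat m) ∈ GG B'

/-- aTRU (A10). Truncation: `N' = N (1 + ε N)⁻¹ = g N g`, `g = (1 + ε N)^(-1/2)`; aCNG gives
`N' - ∑ g B g ∈ GG (g B g)` and `± (B - g B g) ≤ C √ε (1 + N')`; aPER. -/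
def aTRU_stmt : Prop := ∀ {m n : ℕ} (b δ : ℝ), 0 ≤ b → 0 < δ → ∃ ε₀ : ℝ, 0 < ε₀ ∧
  ∀ ε : ℝ, 0 < ε → ε ≤ ε₀ → ∀ (B : Fin n → Mat m) (N : Mat m), Psd B → Le B b → N.PosSemidef →
  N - ∑ i, B i ∈ GG B →
  N * (1 + ε • N)⁻¹ - ∑ i, B i + δ • (1 : Mat m) ∈ GG B

/-- aRNK. Mixed discriminants of positive semidefinite matrices more than `dim D` of which vanish on
`Dᗮ` are zero: replace these by `t` times them in `mD_le_det`: `t ^ |T| m! mD ≤ det (t P + Q)`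
and the right side is `O (t ^ dim D)`. -/
def aRNK_stmt : Prop := ∀ {m : ℕ} (M : Fin m → Mat m), (∀ j, (M j).PosSemidef) →
  ∀ (D : Submodule ℝ (E m)) (T : Finset (Fin m)), Module.finrank ℝ D < T.card →
  (∀ j ∈ T, ∀ v ∈ Dᗮ, (M j).mulVec (fun i => v i) = 0) → mD M = 0

end Pool.Agent.helper69.SN
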