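import Pool.Agent.helper69.SN.SpecA
import Pool.Agent.helper77.SN.BDR

/-! Row aBAR (backup of helper69). -/

open scoped Pointwise ContDiff
open MeasureTheory Set Filter Topology

set_option linter.unusedVariables false

namespace Pool.Agent.helper69.SN

open Pool.Agent.helper83.SC

/-- The real root argument. -/
theorem BAR_root {m : ℕ} (c : ℝ) (hc : 0 < c) (r : Fin m → ℝ) (F F' : ℝ → ℝ)
    (hF : ∀ s, F s = c * ∏ l, (s - r l)) (hd : ∀ s, HasDerivAt F (F' s) s)
    (hp : ∀ s, 0 ≤ s → 0 < F s + F' s) : 0 < F 1 := by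
  classical
  have hder : ∀ s, F' s = c * ∑ i, ∏ j ∈ Finset.univ.erase i, (s - r j) := by
    intro s
    have h1 : HasDerivAt (fun s : ℝ => ∏ l, (s - r l))
        (∑ i, ∏ j ∈ Finset.univ.erase i, (s - r j)) s := by
      have h2 := HasDerivAt.fun_finsetProd (u := Finset.univ) (f := fun (l : Fin m) (s : ℝ) => s - r l)
        (f' := fun _ => (1 : ℝ)) (x := s) (fun i _ => (hasDerivAt_id s).sub_const (r i))
      simpa using h2
    have h3 := (h1.const_mul c)
    have h4 : F = fun s : ℝ => c * ∏ l, (s - r l) := funext hF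
    have h5 := hd s
    rw [h4] at h5
    exact h5.unique h3
  -- the function `exp s * F s` is strictly increasing on `[0, ∞)`
  have hmono : StrictMonoOn (fun s => Real.exp s * F s) (Ici 0) := by
    apply strictMonoOn_of_deriv_pos (convex_Ici 0)
    · exact fun s _ => ((Real.hasDerivAt_exp s).mul (hd s)).continuousAt.continuousWithinAt
    · intro s hs
      rw [interior_Ici] at hs
      have hd1 : HasDerivAt (fun s => Real.exp s * F s) (Real.exp s * F s + Real.exp s * F' s) s :=
        (Real.hasDerivAt_exp s).mul (hd s)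
      rw [hd1.deriv]
      have := hp s (le_of_lt hs)
      have h2 := Real.exp_pos s
      nlinarith [mul_pos h2 this]
  by_contra hcon
  push Not at hcon
  have hneg : ∀ s, 0 ≤ s → s < 1 → F s < 0 := by
    intro s hs hs1
    have h1 := hmono (mem_Ici.2 hs) (mem_Ici.2 zero_le_one) hs1
    simp only at h1
    have h2 : Real.exp 1 * F 1 ≤ 0 := mul_nonpos_of_nonneg_of_nonpos (Real.exp_pos 1).le hcon
    have h3 : Real.exp s * F s < 0 := lt_of_lt_of_le h1 h2
    by_contra h4
    push Not at h4
    exact absurd h3 (not_lt.2 (mul_nonneg (Real.exp_pos s).le h4))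
  have hroot : ∀ l, F (r l) = 0 := by
    intro l
    rw [hF, Finset.prod_eq_zero (Finset.mem_univ l) (by simp), mul_zero]
  have hcase : ∀ l, r l < 0 ∨ 1 ≤ r l := by
    intro l
    by_contra h
    push Not at h
    exact absurd (hroot l) (ne_of_lt (hneg _ h.1 h.2))
  have huni : ∀ l l', 1 ≤ r l → 1 ≤ r l' → l = l' := by
    intro l l' h1 h2
    by_contra hne
    rcases lt_trichotomy (r l) (r l') with h | h | h
    · have := hmono (mem_Ici.2 (zero_le_one.trans h1)) (mem_Ici.2 (zero_le_one.trans h2)) h
      simp only [hroot, mul_zero, lt_irrefl] at this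
    · have h3 : F' (r l) = 0 := by
        rw [hder]
        rw [Finset.sum_eq_zero, mul_zero]
        intro i _
        by_cases hi : i = l
        · subst hi
          exact Finset.prod_eq_zero (i := l') (by simp [Ne.symm hne]) (by rw [h]; ring)
        · exact Finset.prod_eq_zero (i := l) (by simp [Ne.symm hi]) (by ring)
      have h4 := hp (r l) (zero_le_one.trans h1)
      rw [hroot, h3] at h4
      simp at h4
    · have := hmono (mem_Ici.2 (zero_le_one.trans h2)) (mem_Ici.2 (zero_le_one.trans h1)) h
      simp only [hroot, mul_zero, lt_irrefl] at this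
  have hne0 : ∀ l, r l ≠ 0 := by
    intro l
    rcases hcase l with h | h
    · exact ne_of_lt h
    · exact ne_of_gt (lt_of_lt_of_le one_pos h)
  have hsum : ∑ l, (r l)⁻¹ ≤ 1 := by
    by_cases hex : ∃ l, 1 ≤ r l
    · obtain ⟨l₀, hl₀⟩ := hex
      rw [← Finset.add_sum_erase _ _ (Finset.mem_univ l₀)]
      have h1 : (r l₀)⁻¹ ≤ 1 := inv_le_one_of_one_le₀ hl₀
      have h2 : ∑ l ∈ Finset.univ.erase l₀, (r l)⁻¹ ≤ 0 := by
        apply Finset.sum_nonpos
        intro l hl
        rcases hcase l with h | h
        · exact (inv_lt_zero.2 h).le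
        · exact absurd (huni l l₀ h hl₀) (Finset.ne_of_mem_erase hl)
      linarith
    · push Not at hex
      have h2 : ∑ l, (r l)⁻¹ ≤ 0 := by
        apply Finset.sum_nonpos
        intro l _
        rcases hcase l with h | h
        · exact (inv_lt_zero.2 h).le
        · exact absurd h (not_le.2 (hex l))
      linarith
  have hF0 : F' 0 = - F 0 * ∑ l, (r l)⁻¹ := by
    rw [hder, hF, Finset.mul_sum, Finset.mul_sum]
    apply Finset.sum_congr rfl
    intro i _
    rw [← Finset.mul_prod_erase _ _ (Finset.mem_univ i)]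
    have := hne0 i
    field_simp
    ring
  have h0 := hneg 0 le_rfl one_pos
  have h1 := hp 0 le_rfl
  rw [hF0] at h1
  nlinarith

/-- The barrier for a positive definite matrix. -/
theorem BAR_pd (hREC : aREC_stmt) (hDER : aDER_stmt) (hHYP : aHYP_stmt) (hEQV : aEQV_stmt)
    (hCLO : aCLO_stmt) {m n : ℕ} (B : Fin n → Mat m) (hB : Psd B) (k : Fin n) (hk : (B k).PosDef)
    (M : Mat m) (hM : M ∈ GG B) : M + B k ∈ GG (Function.update B k 0) := by
  have hB' : Psd (Function.update B k 0) := by
    intro i
    by_cases hi : i = k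
    · subst hi
      rw [Function.update_self]
      exact Matrix.PosSemidef.zero
    · rw [Function.update_of_ne hi]
      exact hB i
  have hsymm : (B k).IsSymm := by
    have h1 := (hB k).1
    rw [Matrix.IsHermitian, Matrix.conjTranspose_eq_transpose_of_trivial] at h1
    exact h1
  have hMs : (M + B k).IsSymm := by
    have h1 := hM.1
    unfold Matrix.IsSymm at *
    rw [Matrix.transpose_add, h1, hsymm]
  rw [hEQV (Function.update B k 0) hB' (M + B k) 1 hMs Matrix.PosDef.one]
  intro t ht
  have hXs : (M + t • (1 : Mat m)).IsSymm := by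
    have h1 := hM.1
    unfold Matrix.IsSymm at *
    rw [Matrix.transpose_add, h1, Matrix.transpose_smul, Matrix.transpose_one]
  obtain ⟨r, hr⟩ := hHYP (Function.update B k 0) hB' (fun _ => 1) (M + t • (1 : Mat m)) (B k)
    hXs hk
  have hsc : sc (fun _ => 1) (Function.update B k 0) = Function.update B k 0 := by
    funext i
    simp [sc]
  rw [hsc] at hr
  have key := BAR_root (B k).det hk.det_pos r
    (fun s => Ph (Function.update B k 0) (M + t • (1 : Mat m) + s • B k))
    (fun s => dPh (Function.update B k 0) 1 (B k) (M + t • (1 : Mat m) + s • B k))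
    hr ?_ ?_
  · simp only [one_smul] at key
    have e : M + B k + t • (1 : Mat m) = M + t • (1 : Mat m) + B k := by abel
    rw [e]
    exact key
  · intro s
    have h1 := (hDER (Function.update B k 0) (B k) (M + t • (1 : Mat m)) 0 s).1
    have h2 : (fun s : ℝ => dPh (Function.update B k 0) 0 (B k) (M + t • (1 : Mat m) + s • B k)) =
        fun s : ℝ => Ph (Function.update B k 0) (M + t • (1 : Mat m) + s • B k) := by
      funext u
      exact (hDER (Function.update B k 0) (B k) (M + t • (1 : Mat m) + u • B k) 0 0).2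
    rw [h2] at h1
    exact h1
  · intro s hs
    have h1 := hREC B k (M + t • (1 : Mat m) + s • B k)
    rw [← h1]
    have h2 : M + s • B k ∈ GG B := (hCLO B hB).2.1 M _ hM ((hB k).smul hs)
    have h3 := h2.2 t ht.le
    have e : M + s • B k + t • (1 : Mat m) = M + t • (1 : Mat m) + s • B k := by abel
    rw [e] at h3
    exact lt_of_lt_of_le (pow_pos ht m) h3

/-- Entries at most `ρ` in absolute value. -/
theorem BAR_le {m : ℕ} (D : Mat m) (hD : D.IsSymm) (ρ c : ℝ) (h : ∀ a b, |D a b| ≤ ρ)
    (hc : (m : ℝ) * ρ ≤ c) : (c • (1 : Mat m) - D).PosSemidef :=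
  BDR_le D hD ρ c h hc

theorem aBAR_of (hREC : aREC_stmt) (hDER : aDER_stmt) (hHYP : aHYP_stmt) (hEQV : aEQV_stmt)
    (hCLO : aCLO_stmt) (hPBD : aPBD_stmt) (hCL2 : aCL2_stmt) : aBAR_stmt := by
  intro m n B hB k M hM
  have hB' : Psd (Function.update B k 0) := by
    intro i
    by_cases hi : i = k
    · subst hi
      rw [Function.update_self]
      exact Matrix.PosSemidef.zero
    · rw [Function.update_of_ne hi]
      exact hB i
  have hsymm : ∀ i, (B i).IsSymm := by
    intro i
    have h1 := (hB i).1
    rw [Matrix.IsHermitian, Matrix.conjTranspose_eq_transpose_of_trivial] at h1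
    exact h1
  -- a common bound
  obtain ⟨ρ, hρ0, hρB, hρM⟩ : ∃ ρ : ℝ, 0 ≤ ρ ∧ (∀ i a b, |B i a b| ≤ ρ) ∧ ∀ a b, |M a b| ≤ ρ := by
    refine ⟨∑ i, ∑ a, ∑ b, |B i a b| + ∑ a, ∑ b, |M a b|, by positivity, ?_, ?_⟩
    · intro i a b
      have h1 : |B i a b| ≤ ∑ b, |B i a b| :=
        Finset.single_le_sum (f := fun b => |B i a b|) (fun _ _ => abs_nonneg _) (Finset.mem_univ b)
      have h2 : ∑ b, |B i a b| ≤ ∑ a, ∑ b, |B i a b| :=
        Finset.single_le_sum (f := fun a => ∑ b, |B i a b|) (fun _ _ => by positivity)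
          (Finset.mem_univ a)
      have h3 : ∑ a, ∑ b, |B i a b| ≤ ∑ i, ∑ a, ∑ b, |B i a b| :=
        Finset.single_le_sum (f := fun i => ∑ a, ∑ b, |B i a b|) (fun _ _ => by positivity)
          (Finset.mem_univ i)
      have h4 : 0 ≤ ∑ a, ∑ b, |M a b| := by positivity
      linarith
    · intro a b
      have h1 : |M a b| ≤ ∑ b, |M a b| :=
        Finset.single_le_sum (f := fun b => |M a b|) (fun _ _ => abs_nonneg _) (Finset.mem_univ b)
      have h2 : ∑ b, |M a b| ≤ ∑ a, ∑ b, |M a b| :=
        Finset.single_le_sum (f := fun a => ∑ b, |M a b|) (fun _ _ => by positivity)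
          (Finset.mem_univ a)
      have h4 : 0 ≤ ∑ i, ∑ a, ∑ b, |B i a b| := by positivity
      linarith
  have key : ∀ δ : ℝ, 0 < δ → M + B k + (2 * δ) • (1 : Mat m) ∈ GG (Function.update B k 0) := by
    intro δ hδ
    obtain ⟨η, hη, H⟩ := hPBD (m := m) (n := n) ((m : ℝ) * (ρ + 1) + ρ + 1) δ hδ
    set ε : ℝ := min (min η δ) 1 with hε
    have hε0 : 0 < ε := lt_min (lt_min hη hδ) one_pos
    have hεη : ε ≤ η := (min_le_left _ _).trans (min_le_left _ _)
    have hεδ : ε ≤ δ := (min_le_left _ _).trans (min_le_right _ _)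
    have hε1 : ε ≤ 1 := min_le_right _ _
    set Be : Fin n → Mat m := Function.update B k (B k + ε • (1 : Mat m)) with hBe
    have hpd : (B k + ε • (1 : Mat m)).PosDef :=
      Matrix.PosDef.posSemidef_add (hB k) (Matrix.PosDef.one.smul hε0)
    have hBeP : Psd Be := by
      intro i
      by_cases hi : i = k
      · subst hi
        rw [hBe, Function.update_self]
        exact hpd.posSemidef
      · rw [hBe, Function.update_of_ne hi]
        exact hB i
    have hent : ∀ i a b, |B i a b - Be i a b| ≤ ε := by
      intro i a b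
      by_cases hi : i = k
      · subst hi
        rw [hBe, Function.update_self]
        by_cases hab : a = b
        · subst hab
          simp [abs_of_pos hε0]
        · simp [Matrix.one_apply_ne hab, hε0.le]
      · rw [hBe, Function.update_of_ne hi]
        simp [hε0.le]
    have hentB : ∀ i a b, |Be i a b| ≤ ρ + 1 := by
      intro i a b
      have h1 := hent i a b
      have h2 := hρB i a b
      have h3 : |Be i a b| ≤ |B i a b| + |B i a b - Be i a b| := by
        have := abs_sub_abs_le_abs_sub (Be i a b) (B i a b)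
        rw [abs_sub_comm (Be i a b)] at this
        linarith
      linarith
    have hsymm' : ∀ i, (Be i).IsSymm := by
      intro i
      have h1 := (hBeP i).1
      rw [Matrix.IsHermitian, Matrix.conjTranspose_eq_transpose_of_trivial] at h1
      exact h1
    have hmρ : 0 ≤ (m : ℝ) * ρ := mul_nonneg (Nat.cast_nonneg m) hρ0
    have hm0 : 0 ≤ (m : ℝ) := Nat.cast_nonneg m
    have h1 := H B Be M hB hBeP
      (fun i => BAR_le (B i) (hsymm i) ρ _ (hρB i) (by nlinarith))
      (fun i => BAR_le (Be i) (hsymm' i) (ρ + 1) _ (hentB i) (by nlinarith)) hM.1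
      (fun a b => (hρM a b).trans (by nlinarith)) (fun i a b => (hent i a b).trans hεη)
      ((hCLO B hB).2.1 M _ hM (Matrix.PosSemidef.one.smul hη.le))
    have hk' : (Be k).PosDef := by rw [hBe, Function.update_self]; exact hpd
    have h2 := BAR_pd hREC hDER hHYP hEQV hCLO Be hBeP k hk' _ h1
    have h3 : Function.update Be k 0 = Function.update B k 0 := by
      rw [hBe, Function.update_idem]
    rw [h3] at h2
    have h4 := (hCLO (Function.update B k 0) hB').2.1 _ ((δ - ε) • (1 : Mat m)) h2
      (Matrix.PosSemidef.one.smul (by linarith))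
    have h5 : M + δ • (1 : Mat m) + Be k + (δ - ε) • (1 : Mat m) =
        M + B k + (2 * δ) • (1 : Mat m) := by
      rw [hBe, Function.update_self, sub_smul, two_mul, add_smul]
      abel
    rw [h5] at h4
    exact h4
  -- let `δ` tend to zero
  have hcl := hCL2 (m := m) (n := n)
  have htend : Tendsto (fun δ : ℝ => ((Function.update B k 0 : Fin n → Mat m),
      M + B k + (2 * δ) • (1 : Mat m))) (𝓝[>] 0)
      (𝓝 (Function.update B k 0, M + B k)) := by
    have hc : Continuous (fun δ : ℝ => ((Function.update B k 0 : Fin n → Mat m),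
      M + B k + (2 * δ) • (1 : Mat m))) := by fun_prop
    have h1 := hc.tendsto 0
    simp only [mul_zero, zero_smul, add_zero] at h1
    exact h1.mono_left nhdsWithin_le_nhds
  exact hcl.mem_of_tendsto htend (by
    filter_upwards [self_mem_nhdsWithin] with δ hδ
    exact key δ hδ)

end Pool.Agent.helper69.SN
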