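import Pool.Agent.helper83.SC.Stmt

/-!
Project sn (MP_d2d7b9, frozen S13995), blocks A-E: the multi-affine (MAP) classes.
Blueprint: /team-store/SCH_helper69e.md.  Library: Pool/Agent/helper83/SC.
-/

open scoped Pointwise ContDiff
open MeasureTheory Set Filter Topology

set_option linter.unusedVariables false

namespace Pool.Agent.helper69.SN

open Pool.Agent.helper83.SC

/-- Square matrices. -/
abbrev Mat (m : ℕ) : Type := Matrix (Fin m) (Fin m) ℝ

/-! ### The multi-affine polynomial `Ph B M = ∏ i, (1 + ∂_{B i}) det (M)` -/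

/-- First the matrices `B i`, `i ∈ T`, and `M` in all the other places. -/
noncomputable def slot {m n : ℕ} (B : Fin n → Mat m) (T : Finset (Fin n)) (M : Mat m) :
    Fin m → Mat m :=
  fun j => if h : (j : ℕ) < T.card then B (T.orderEmbOfFin rfl ⟨j, h⟩) else M

/-- First the matrices `B i`, `i ∈ T`, then `r` times `A`, and `M` in all the other places. -/
noncomputable def slotA {m n : ℕ} (B : Fin n → Mat m) (T : Finset (Fin n)) (r : ℕ) (A M : Mat m) :
    Fin m → Mat m :=
  fun j => if h : (j : ℕ) < T.card then B (T.orderEmbOfFin rfl ⟨j, h⟩)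
    else if (j : ℕ) < T.card + r then A else M

/-- `Ph B M = ∏ i, (1 + ∂_{B i}) det (M)`: the sum over `T` of the derivatives of the determinant
at `M` in the directions `B i`, `i ∈ T`. -/
noncomputable def Ph {m n : ℕ} (B : Fin n → Mat m) (M : Mat m) : ℝ :=
  ∑ T : Finset (Fin n), (m.descFactorial T.card : ℝ) * mD (slot B T M)

/-- The `r`-th derivative of `Ph B` at `M` in the direction `A`. -/
noncomputable def dPh {m n : ℕ} (B : Fin n → Mat m) (r : ℕ) (A M : Mat m) : ℝ :=
  ∑ T : Finset (Fin n), (m.descFactorial (T.card + r) : ℝ) * mD (slotA B T r A M)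

/-- The class cone: all the roots of `t ↦ Ph B (M + t 1)` are `≤ 0`. -/
def GG {m n : ℕ} (B : Fin n → Mat m) : Set (Mat m) :=
  {M | M.IsSymm ∧ ∀ t : ℝ, 0 ≤ t → t ^ m ≤ Ph B (M + t • (1 : Mat m))}

/-- All matrices of the family are positive semidefinite. -/
def Psd {m n : ℕ} (B : Fin n → Mat m) : Prop := ∀ i, (B i).PosSemidef

/-- All matrices of the family are at most `b`. -/
def Le {m n : ℕ} (B : Fin n → Mat m) (b : ℝ) : Prop :=
  ∀ i, (b • (1 : Mat m) - B i).PosSemidef

/-- Weighted family. -/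
def sc {m n : ℕ} (lam : Fin n → ℝ) (B : Fin n → Mat m) : Fin n → Mat m := fun i => lam i • B i

/-- The weight `K` on `S`, `s` on `J` and `0` elsewhere (`S` and `J` disjoint). -/
noncomputable def wt {n : ℕ} (S : Finset (Fin n)) (K : ℝ) (J : Finset (Fin n)) (s : ℝ) :
    Fin n → ℝ := fun i => if i ∈ S then K else if i ∈ J then s else 0

/-! ### Classes of convex functions -/

/-- Smooth convex functions. -/
def SmC {m : ℕ} (f : E m → ℝ) : Prop := ContDiff ℝ ∞ f ∧ CV f

/-- The class of `κ` : `D²κ(x) - ∑ i, B x i ∈ GG (B x)` in the sense of smooth approximations. -/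
def Cls {m n : ℕ} (B : E m → Fin n → Mat m) (κ : E m → ℝ) : Prop :=
  ∀ R ε : ℝ, 0 < ε → ∃ κ' : E m → ℝ, SmC κ' ∧ (∀ x, ‖x‖ ≤ R → |κ' x - κ x| ≤ ε) ∧
    ∀ x, ‖x‖ ≤ R → hess κ' x - ∑ i, B x i ∈ GG (B x)

/-- The Perron function: the supremum of the members of the class which are `≤ κ₀` off `U`. -/
noncomputable def per {m n : ℕ} (B : E m → Fin n → Mat m) (U : Set (E m)) (κ₀ : E m → ℝ)
    (x : E m) : ℝ :=
  sSup {t | ∃ κ, Cls B κ ∧ (∀ y, y ∉ U → κ y ≤ κ₀ y) ∧ t = κ x}

/-- The family of the Hessians of `a`, with weights. -/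
noncomputable def hs {m n : ℕ} (a : Fin n → E m → ℝ) (lam : Fin n → ℝ) (x : E m) : Fin n → Mat m :=
  fun i => lam i • hess (a i) x

end Pool.Agent.helper69.SN
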