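import Pool.Agent.helper69.SN.SpecA

/-!
# Block B: classes of convex functions, Perron functions, THEOREM EX (rows sn:b.., sn:x..)

Blueprint /team-store/SCH_helper69e.md, section B.  `Cls B κ`: `κ` has smooth convex approximants
`κ'` (locally uniformly) with `hess κ' x - ∑ i, B x i ∈ GG (B x)`.
-/

open scoped Pointwise ContDiff
open MeasureTheory Set Filter Topology

set_option linter.unusedVariables false

namespace Pool.Agent.helper69.SN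

open Pool.Agent.helper83.SC

/-- The class condition on a set only. -/
def ClsOn {m n : ℕ} (B : E m → Fin n → Mat m) (O : Set (E m)) (κ : E m → ℝ) : Prop :=
  ∀ R ε : ℝ, 0 < ε → ∃ κ' : E m → ℝ, SmC κ' ∧ (∀ x, ‖x‖ ≤ R → |κ' x - κ x| ≤ ε) ∧
    ∀ x, ‖x‖ ≤ R → x ∈ O → hess κ' x - ∑ i, B x i ∈ GG (B x)

/-- The Moreau envelope (inf-convolution). -/
noncomputable def mor {m : ℕ} (κ : E m → ℝ) (e : ℝ) (x : E m) : ℝ :=
  ⨅ y, (κ y + ‖x - y‖ ^ 2 / (2 * e))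

/-- `P` is a proximal map of `κ`. -/
def IsPrx {m : ℕ} (κ : E m → ℝ) (e : ℝ) (P : E m → E m) : Prop :=
  ∀ x y, κ (P x) + ‖x - P x‖ ^ 2 / (2 * e) ≤ κ y + ‖x - y‖ ^ 2 / (2 * e)

/-- Mollification with a bump function. -/
noncomputable def mol {m : ℕ} (φ : ContDiffBump (0 : E m)) (f : E m → ℝ) (x : E m) : ℝ :=
  ∫ t, φ.normed volume t * f (x - t)

/-- The quadratic form of a matrix. -/
noncomputable def qf {m : ℕ} (M : Mat m) (h : E m) : ℝ := ∑ i, ∑ j, h i * M i j * h j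

/-! ## Part 1: Hessians, regularized maximum -/

/-- bCVX. A smooth function with positive semidefinite Hessians is convex (restrict to lines:
`t ↦ f (x + t v)` has second derivative `vᵀ hess f v ≥ 0`); Hessians are symmetric. -/
def bCVX_stmt : Prop := ∀ {m : ℕ} {f : E m → ℝ}, ContDiff ℝ ∞ f →
  (∀ x, (hess f x).IsSymm) ∧ ((∀ x, (hess f x).PosSemidef) → CV f)

/-- bSCD. At an interior local maximum of a smooth function minus-the-Hessian is positive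
semidefinite (second derivative test on lines). -/
def bSCD_stmt : Prop := ∀ {m : ℕ} {f : E m → ℝ} {x : E m}, ContDiff ℝ ∞ f → IsLocalMax f x →
  (-(hess f x)).PosSemidef

/-- bQUA. Quadratic functions: `q(x) = c + ⟨p, x - y⟩ + 1/2 (x-y)ᵀ M (x-y)` is smooth with Hessian
`M` (`M` symmetric). -/
def bQUA_stmt : Prop := ∀ {m : ℕ} (c : ℝ) (p y : E m) (M : Mat m), M.IsSymm →
  ContDiff ℝ ∞ (fun x => c + inner ℝ p (x - y) + 1 / 2 * qf M (x - y)) ∧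
  ∀ x, hess (fun x => c + inner ℝ p (x - y) + 1 / 2 * qf M (x - y)) x = M

/-- bRMX. Regularized maximum `w = (u + v)/2 + η((u - v))/2`, `η` smooth, even, convex, `|η'| ≤ 1`,
`|t| ≤ η(t) ≤ |t| + s`, `η(t) = |t|` for `|t| ≥ s` (mollify `|t|`).
`hess w = θ hess u + (1-θ) hess v + 1/2 η'' ∇(u-v) ⊗ ∇(u-v)`, `θ = (1 + η')/2`. -/
def bRMX_stmt : Prop := ∀ {m : ℕ} (s : ℝ), 0 < s → ∀ (u v : E m → ℝ), ContDiff ℝ ∞ u → ContDiff ℝ ∞ v →
  ∃ w : E m → ℝ, ContDiff ℝ ∞ w ∧ (∀ x, max (u x) (v x) ≤ w x ∧ w x ≤ max (u x) (v x) + s) ∧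
    (∀ x, v x + s ≤ u x → w x = u x) ∧ (∀ x, u x + s ≤ v x → w x = v x) ∧
    (CV u → CV v → CV w) ∧
    ∀ x, ∃ (θ : ℝ) (P : Mat m), 0 ≤ θ ∧ θ ≤ 1 ∧ P.PosSemidef ∧
      hess w x = θ • hess u x + (1 - θ) • hess v x + P ∧
      (v x + s < u x → θ = 1 ∧ P = 0) ∧ (u x + s < v x → θ = 0 ∧ P = 0)

/-! ## Part 2: the class -/

/-- bCLS. Elementary closure properties. (a) smooth members; (b) members are convex (limits of
convex functions); (c) adding a smooth convex function; (d) locally uniform limits;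
(e) `ClsOn` on the whole space and monotonicity in the set. -/
def bCLS_stmt : Prop := ∀ {m n : ℕ} (B : E m → Fin n → Mat m), (∀ x, Psd (B x)) →
  (∀ κ, SmC κ → (∀ x, hess κ x - ∑ i, B x i ∈ GG (B x)) → Cls B κ) ∧
  (∀ κ, Cls B κ → CV κ ∧ Continuous κ) ∧
  (∀ κ q, Cls B κ → SmC q → Cls B (fun x => κ x + q x)) ∧
  (∀ f, (∀ R ε : ℝ, 0 < ε → ∃ κ, Cls B κ ∧ ∀ x, ‖x‖ ≤ R → |κ x - f x| ≤ ε) → Cls B f) ∧
  (∀ κ, Cls B κ ↔ ClsOn B univ κ)

/-- bGLU. Global gluing: `v` is in the class on `O` only and is (locally uniformly) smaller than `u`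
off `O`; then `max u v` is in the class. (regularized max with `s` small; aCLO for convexity of `GG`.) -/
def bGLU_stmt : Prop := ∀ {m n : ℕ} (B : E m → Fin n → Mat m), (∀ x, Psd (B x)) →
  ∀ (O : Set (E m)) (u v : E m → ℝ), Cls B u → ClsOn B O v →
  (∀ R : ℝ, ∃ c : ℝ, 0 < c ∧ ∀ x, ‖x‖ ≤ R → x ∉ O → v x + c ≤ u x) →
  Cls B (fun x => max (u x) (v x))

/-- bLGL. Local gluing: `v` smooth convex, in the class on the closure of the bounded open set `O`,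
`v < u` on the frontier of `O`.  Then `max u v` on `O`, `u` off `O` is in the class.  (Regularized max
on `O`, `u'` off `O`; near the frontier it is `u'`; Hessians psd everywhere, bCVX.) -/
def bLGL_stmt : Prop := ∀ {m n : ℕ} (B : E m → Fin n → Mat m), (∀ x, Psd (B x)) →
  ∀ (O : Set (E m)) (u v : E m → ℝ), IsOpen O → Bornology.IsBounded O → Cls B u → SmC v →
  (∀ x ∈ closure O, hess v x - ∑ i, B x i ∈ GG (B x)) → (∀ x ∈ frontier O, v x < u x) →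
  ∀ f : E m → ℝ, (∀ x ∈ O, f x = max (u x) (v x)) → (∀ x, x ∉ O → f x = u x) → Cls B f

/-- bSUP. Suprema of families: `f` is convex, hence continuous; on a ball finitely many members come
`ε`-close (compactness), and the class is closed under `max` (bGLU with `O = univ`). -/
def bSUP_stmt : Prop := ∀ {m n : ℕ} (B : E m → Fin n → Mat m), (∀ x, Psd (B x)) →
  ∀ (Fam : Set (E m → ℝ)) (f : E m → ℝ), Fam.Nonempty → (∀ κ ∈ Fam, Cls B κ) →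
  (∀ x, IsLUB {t | ∃ κ ∈ Fam, t = κ x} (f x)) → Cls B f

/-- bPER. PERRON. The supremum is finite since a point of `U` is on a segment with end points off `U`
(members are convex), it is in the class (bSUP), `= κ₀` off `U`, and it is maximal. -/
def bPER_stmt : Prop := ∀ {m n : ℕ}, 1 ≤ m → ∀ (B : E m → Fin n → Mat m), (∀ x, Psd (B x)) →
  ∀ (U : Set (E m)) (κ₀ : E m → ℝ), Bornology.IsBounded U → Cls B κ₀ →
  Cls B (per B U κ₀) ∧ (∀ x, κ₀ x ≤ per B U κ₀ x) ∧ (∀ x, x ∉ U → per B U κ₀ x = κ₀ x) ∧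
  ∀ κ, Cls B κ → (∀ y, y ∉ U → κ y ≤ κ₀ y) → ∀ x, κ x ≤ per B U κ₀ x

/-- bMXP. Maximum principle for `κ - b`, if no matrix `-(c 1)` is in the shifted cone: at an interior
maximum `x₁` of `κ' - b + ε ‖x‖²` one has `hess κ' + P - hess b = -2ε` with `P` psd. -/
def bMXP_stmt : Prop := ∀ {m n : ℕ} (B : E m → Fin n → Mat m), (∀ x, Psd (B x)) →
  ∀ (U : Set (E m)) (κ b : E m → ℝ) (L : ℝ), Bornology.IsBounded U → Cls B κ → ContDiff ℝ ∞ b →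
  (∀ x ∈ U, ∀ M : Mat m, M - ∑ i, B x i ∈ GG (B x) → ∀ c : ℝ, 0 < c →
    M - hess b x ≠ -(c • (1 : Mat m))) →
  (∀ x, x ∉ U → κ x - b x ≤ L) → ∀ x, κ x - b x ≤ L

/-! ## Part 3: mollification -/

/-- mMOA. Basic facts: smooth, convexity is preserved, closeness, Lipschitz constants on balls. -/
def mMOA_stmt : Prop := ∀ {m : ℕ} (φ : ContDiffBump (0 : E m)) (f : E m → ℝ), Continuous f →
  ContDiff ℝ ∞ (mol φ f) ∧ (CV f → CV (mol φ f)) ∧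
  (∀ x ε, (∀ t, ‖t‖ ≤ φ.rOut → |f (x - t) - f x| ≤ ε) → |mol φ f x - f x| ≤ ε) ∧
  (∀ R L, (∀ x y, ‖x‖ ≤ R + φ.rOut → ‖y‖ ≤ R + φ.rOut → |f x - f y| ≤ L * ‖x - y‖) →
    ∀ x y, ‖x‖ ≤ R → ‖y‖ ≤ R → |mol φ f x - mol φ f y| ≤ L * ‖x - y‖)

/-- mMOB. For smooth `f` the Hessian of the mollification is the average of the Hessians, so it stays
in closed convex sets. -/
def mMOB_stmt : Prop := ∀ {m : ℕ} (φ : ContDiffBump (0 : E m)) (f : E m → ℝ), ContDiff ℝ ∞ f →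
  ∀ (x : E m) (Q : Set (Mat m)), IsClosed Q → Convex ℝ Q →
  (∀ y, ‖y - x‖ ≤ φ.rOut → hess f y ∈ Q) → hess (mol φ f) x ∈ Q

/-- mMOC. Uniform convergence gives convergence of the Hessians of mollifications (all derivatives on
the bump function). -/
def mMOC_stmt : Prop := ∀ {m : ℕ} (φ : ContDiffBump (0 : E m)) (f : E m → ℝ) (g : ℕ → E m → ℝ),
  Continuous f → (∀ k, Continuous (g k)) → ∀ x : E m,
  (∀ ε : ℝ, 0 < ε → ∃ k₀, ∀ k ≥ k₀, ∀ y, ‖y - x‖ ≤ φ.rOut → |g k y - f y| ≤ ε) →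
  Tendsto (fun k => hess (mol φ (g k)) x) atTop (𝓝 (hess (mol φ f) x))

/-- mRAD. `k` convex and differentiable with Lipschitz gradient `G`: almost everywhere `G` is
differentiable (Rademacher), there is a second order expansion with a symmetric psd matrix `M x`,
and the Hessians of the mollifications converge to `M x` (Lebesgue points of the derivative of `G`;
take bump functions with `rIn = rOut / 2`) and are bounded. -/
def mRAD_stmt : Prop := ∀ {m : ℕ} (k : E m → ℝ) (G : E m → E m) (L : ℝ), 0 ≤ L → CV k →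
  (∀ x, HasGradientAt k (G x) x) → (∀ x y, ‖G x - G y‖ ≤ L * ‖x - y‖) →
  ∀ φ : ℕ → ContDiffBump (0 : E m), Tendsto (fun j => (φ j).rOut) atTop (𝓝 0) →
  (∀ j, (φ j).rOut = 2 * (φ j).rIn) →
  ∃ M : E m → Mat m, (∀ᵐ x, (M x).PosSemidef ∧
      Tendsto (fun j => hess (mol (φ j) k) x) atTop (𝓝 (M x)) ∧
      ∀ ε : ℝ, 0 < ε → ∃ r : ℝ, 0 < r ∧ ∀ h : E m, ‖h‖ ≤ r →
        |k (x + h) - (k x + inner ℝ (G x) h + 1 / 2 * qf (M x) h)| ≤ ε * ‖h‖ ^ 2) ∧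
    ∃ C : ℝ, ∀ j x a b, |hess (mol (φ j) k) x a b| ≤ C

/-! ## Part 4: the Moreau envelope -/

/-- xPRX. Proximal map of a convex function. -/
def xPRX_stmt : Prop := ∀ {m : ℕ} (κ : E m → ℝ) (e : ℝ), CV κ → 0 < e →
  ∃ P : E m → E m, IsPrx κ e P ∧ (∀ x, mor κ e x = κ (P x) + ‖x - P x‖ ^ 2 / (2 * e)) ∧
    (∀ x y, ‖P x - P y‖ ≤ ‖x - y‖) ∧
    (∀ x y, ‖(x - P x) - (y - P y)‖ ≤ ‖x - y‖) ∧
    (∀ x, HasGradientAt (mor κ e) (e⁻¹ • (x - P x)) x) ∧ CV (mor κ e) ∧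
    (∀ x, mor κ e x ≤ κ x) ∧
    (∀ x z, κ (P x) + inner ℝ (e⁻¹ • (x - P x)) (z - P x) ≤ κ z)

/-- xLOC. Local estimates: `κ (P x) ≥ κ x - L ‖x - P x‖` (convexity along the segment). -/
def xLOC_stmt : Prop := ∀ {m : ℕ} (κ : E m → ℝ) (e R L : ℝ) (P : E m → E m), CV κ → 0 < e → 0 ≤ L →
  IsPrx κ e P → (∀ x, mor κ e x = κ (P x) + ‖x - P x‖ ^ 2 / (2 * e)) →
  (∀ x y, ‖x‖ ≤ R + 1 → ‖y‖ ≤ R + 1 → |κ x - κ y| ≤ L * ‖x - y‖) →
  ∀ x, ‖x‖ ≤ R → ‖x - P x‖ ≤ 2 * e * L ∧ κ x - 2 * e * L ^ 2 ≤ mor κ e x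

/-- xCMP. Envelopes of close functions are close: minimizers are within distance 1. -/
def xCMP_stmt : Prop := ∀ {m : ℕ} (κ κ' : E m → ℝ) (e R L ε : ℝ), CV κ → CV κ' → 0 < e → 0 ≤ L →
  2 * e * L ≤ 1 → (∀ x y, ‖x‖ ≤ R + 1 → ‖y‖ ≤ R + 1 → |κ x - κ y| ≤ L * ‖x - y‖) →
  (∀ x y, ‖x‖ ≤ R + 1 → ‖y‖ ≤ R + 1 → |κ' x - κ' y| ≤ L * ‖x - y‖) →
  (∀ x, ‖x‖ ≤ R + 1 → |κ' x - κ x| ≤ ε) → ∀ x, ‖x‖ ≤ R → |mor κ' e x - mor κ e x| ≤ ε

/-- xHES. The envelope of a smooth convex function is smooth with Hessian `N (1 + e N)⁻¹`,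
`N = hess κ (P x)`: `F(y) = y + e ∇κ(y)` is a bijection with invertible derivative `1 + e N`,
inverse `P` (inverse function theorem), and `∇ mor = (x - P x)/e`. -/
def xHES_stmt : Prop := ∀ {m : ℕ} (κ : E m → ℝ) (e : ℝ) (P : E m → E m), SmC κ → 0 < e →
  IsPrx κ e P → ContDiff ℝ ∞ (mor κ e) ∧
  ∀ x, hess (mor κ e) x = hess κ (P x) * (1 + e • hess κ (P x))⁻¹

/-- xAPC. Envelopes of class functions are in the class up to `δ`, in the sense of approximants.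
Take approximants `κ'` of `κ` on a large ball, `κ'' = mor κ' e`; xHES, aTRU at `y = P' x`, then aPER
from `B y` to `B x` (`‖x - y‖ ≤ 2 e L`), xCMP. `B` is bounded and uniformly continuous on balls. -/
def xAPC_stmt : Prop := ∀ {m n : ℕ} (B : E m → Fin n → Mat m), (∀ x, Psd (B x)) →
  (∀ i, Continuous fun x => B x i) → ∀ κ : E m → ℝ, Cls B κ → ∀ R δ : ℝ, 0 < δ →
  ∃ e₀ : ℝ, 0 < e₀ ∧ ∀ e : ℝ, 0 < e → e ≤ e₀ → ∀ ε : ℝ, 0 < ε → ∃ κ'' : E m → ℝ, SmC κ'' ∧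
    (∀ x, ‖x‖ ≤ R → |κ'' x - mor κ e x| ≤ ε) ∧
    ∀ x, ‖x‖ ≤ R → hess κ'' x - ∑ i, B x i + δ • (1 : Mat m) ∈ GG (B x)

/-- xMLC. The same for the mollified envelope itself, `2 δ` instead of `δ`, for all bump functions of
small support (aPER from `B y` to `B x`, mMOB, mMOC; `GG` closed convex). -/
def xMLC_stmt : Prop := ∀ {m n : ℕ} (B : E m → Fin n → Mat m), (∀ x, Psd (B x)) →
  (∀ i, Continuous fun x => B x i) → ∀ κ : E m → ℝ, Cls B κ → ∀ R δ : ℝ, 0 < δ →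
  ∃ e₀ ρ : ℝ, 0 < e₀ ∧ 0 < ρ ∧ ∀ e : ℝ, 0 < e → e ≤ e₀ → ∀ φ : ContDiffBump (0 : E m), φ.rOut ≤ ρ →
    ∀ x, ‖x‖ ≤ R → hess (mol φ (mor κ e)) x - ∑ i, B x i + (2 * δ) • (1 : Mat m) ∈ GG (B x)

/-- xTCH. Second order touching from below at a point of maximality: the quadratic
`q(x) = κ(y) + c₀ + ⟨p, x-y⟩ + 1/2 (x-y)ᵀ(M - s/2)(x-y)` would be in the class near `y` (aPER, continuity
of `B`; `M - s/2` is psd by aBSM), `< κ` on a small sphere and `> κ` at `y`: bLGL, maximality. -/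
def xTCH_stmt : Prop := ∀ {m n : ℕ}, 1 ≤ m → ∀ (B : E m → Fin n → Mat m), (∀ x, Psd (B x)) →
  (∀ i, Continuous fun x => B x i) → ∀ (U : Set (E m)) (κ₀ : E m → ℝ), IsOpen U →
  Bornology.IsBounded U → Cls B κ₀ → ∀ y ∈ U, ∀ (p : E m) (M : Mat m), M.PosSemidef →
  (∀ ε : ℝ, 0 < ε → ∃ r : ℝ, 0 < r ∧ ∀ h : E m, ‖h‖ ≤ r →
    per B U κ₀ y + inner ℝ p h + 1 / 2 * qf M h - ε * ‖h‖ ^ 2 ≤ per B U κ₀ (y + h)) →
  ∀ s : ℝ, 0 < s → M - s • (1 : Mat m) - ∑ i, B y i ∉ GG (B y)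

/-- xBDR. At almost every `x` the matrix `M x` of mRAD for the envelope of the Perron function is not
inside: `κ(y + h) ≥ mor κ e (x + h) - ‖x - y‖²/2e` with equality at `h = 0`, `y = P x`; xTCH at `y`;
from `y` to `x` by aPER (applied to `N = M - δ`, psd by aBSM). -/
def xBDR_stmt : Prop := ∀ {m n : ℕ}, 1 ≤ m → ∀ (B : E m → Fin n → Mat m), (∀ x, Psd (B x)) →
  (∀ i, Continuous fun x => B x i) → ∀ (U : Set (E m)) (κ₀ : E m → ℝ), IsOpen U →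
  Bornology.IsBounded U → Cls B κ₀ → ∀ Z : Set (E m), IsCompact Z → Z ⊆ U → ∀ δ : ℝ, 0 < δ →
  ∃ e₀ : ℝ, 0 < e₀ ∧ ∀ e : ℝ, 0 < e → e ≤ e₀ → ∀ x ∈ Z, ∀ (g : E m) (M : Mat m), M.PosSemidef →
    HasGradientAt (mor (per B U κ₀) e) g x →
    (∀ ε : ℝ, 0 < ε → ∃ r : ℝ, 0 < r ∧ ∀ h : E m, ‖h‖ ≤ r →
      |mor (per B U κ₀) e (x + h) - (mor (per B U κ₀) e x + inner ℝ g h + 1 / 2 * qf M h)|
        ≤ ε * ‖h‖ ^ 2) →
    M - ∑ i, B x i - δ • (1 : Mat m) ∉ GG (B x)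

/-- xMAS. Monge-Ampere mass: `m! B φ F ≤ A φ (∑ F_j) ≤` volume of the set of slopes (B_smooth, B_le_A,
`|p| ≤` Lipschitz constant where there is an argmin in the support). -/
def xMAS_stmt : Prop := ∀ {m : ℕ} (R L : ℝ), ∃ C : ℝ, ∀ f : E m → ℝ, SmC f →
  (∀ x y, ‖x‖ ≤ R + 1 → ‖y‖ ≤ R + 1 → |f x - f y| ≤ L * ‖x - y‖) →
  ∫ x in Metric.closedBall (0 : E m) R,
    mD (fun j : Fin m => if (j : ℕ) = 0 then (1 : Mat m) else hess f x + 1) ≤ C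

/-- bEX. THEOREM EX. `κ'' = mol φ_j (mor κ e) + δ ‖x‖²` with `δ`, then `e`, then `j`: closeness by xLOC
and mMOA; class by xMLC; `lim_j ∫_Z Ph (B x)(hess κ'' - ∑ B) = ∫_Z Ph (B x)(M x + 2δ - ∑ B)` (dominated
convergence, mRAD) and by aSML (`c = 2δ`, `s = 3δ`, xMLC in the limit, xBDR) and xMAS this is
`≤ 3 δ C`.  `C` does not depend on `e` (local Lipschitz constants of `mor κ e` are those of `κ`). -/
def bEX_stmt : Prop := ∀ {m n : ℕ}, 1 ≤ m → ∀ (B : E m → Fin n → Mat m), (∀ x, Psd (B x)) →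
  (∀ i, Continuous fun x => B x i) → ∀ (U : Set (E m)) (κ₀ : E m → ℝ), IsOpen U →
  Bornology.IsBounded U → Cls B κ₀ → ∀ Z : Set (E m), IsCompact Z → Z ⊆ U → ∀ R ε : ℝ, 0 < ε →
  ∃ κ' : E m → ℝ, SmC κ' ∧ (∀ x, ‖x‖ ≤ R → |κ' x - per B U κ₀ x| ≤ ε) ∧
    (∀ x, ‖x‖ ≤ R → hess κ' x - ∑ i, B x i ∈ GG (B x)) ∧
    ∫ x in Z, Ph (B x) (hess κ' x - ∑ i, B x i) ≤ ε

end Pool.Agent.helper69.SN
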