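import Pool.Agent.helper83.SC.Wire
import Pool.Agent.helper69.SN.SpecB
import Pool.Agent.helper28.SN.SpecC
import Pool.Agent.helper40.SN.SpecD
import Pool.Agent.helper1.SN.MOC
import Pool.Agent.helper1.SN.SML
import Pool.Agent.helper11.SN.cMCP
import Pool.Agent.helper13.SN.cMCF
import Pool.Agent.helper13.SN.cRAD
import Pool.Agent.helper13.SN.dNCV
import Pool.Agent.helper14.SN.aPER
import Pool.Agent.helper18.SN.dLIP
import Pool.Agent.helper19.SN.APC
import Pool.Agent.helper20.SN.NXT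
import Pool.Agent.helper21.SN.MMOB
import Pool.Agent.helper21.SN.dMNO
import Pool.Agent.helper28.SN.CCMP
import Pool.Agent.helper28.SN.DZER
import Pool.Agent.helper30.SN.CNG
import Pool.Agent.helper30.SN.dSTR
import Pool.Agent.helper31.SN.bQUA
import Pool.Agent.helper33.SN.BEX
import Pool.Agent.helper33.SN.aHOM
import Pool.Agent.helper34.SN.xMAS
import Pool.Agent.helper39.SN.ZER
import Pool.Agent.helper39.SN.cPRJ
import Pool.Agent.helper40.SN.dEND
import Pool.Agent.helper40.SN.dGEO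
import Pool.Agent.helper40.SN.dIND
import Pool.Agent.helper40.SN.dJEN
import Pool.Agent.helper40.SN.dPTT
import Pool.Agent.helper44.SN.SUP
import Pool.Agent.helper46.SN.cVB
import Pool.Agent.helper46.SN.dCOR
import Pool.Agent.helper48.SN.PBD
import Pool.Agent.helper49.SN.bCLS
import Pool.Agent.helper50.SN.CLO
import Pool.Agent.helper50.SN.cCNT
import Pool.Agent.helper52.SN.cREG
import Pool.Agent.helper57.SN.BSCD
import Pool.Agent.helper57.SN.dCMP
import Pool.Agent.helper59.SN.CNT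
import Pool.Agent.helper59.SN.dBAS
import Pool.Agent.helper64.SN.xHES
import Pool.Agent.helper66.SN.CL2
import Pool.Agent.helper69.SN.BAR
import Pool.Agent.helper71.SN.LGL
import Pool.Agent.helper71.SN.MXP
import Pool.Agent.helper75.SN.GLU
import Pool.Agent.helper76.SN.cCLN
import Pool.Agent.helper76.SN.dWQ
import Pool.Agent.helper77.SN.BDR
import Pool.Agent.helper77.SN.BSM
import Pool.Agent.helper77.SN.CVX
import Pool.Agent.helper77.SN.MAX
import Pool.Agent.helper77.SN.PER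
import Pool.Agent.helper77.SN.SUP
import Pool.Agent.helper77.SN.cBDD
import Pool.Agent.helper77.SN.cMDZ
import Pool.Agent.helper77.SN.dCAP
import Pool.Agent.helper77.SN.dXQ
import Pool.Agent.helper78.SN.mRAD
import Pool.Agent.helper79.SN.TRU
import Pool.Agent.helper79.SN.cIBP
import Pool.Agent.helper79.SN.cVAN
import Pool.Agent.helper79.SN.dBND
import Pool.Agent.helper81.SN.cLOC
import Pool.Agent.helper81.SN.xCMP
import Pool.Agent.helper85.SN.RMX
import Pool.Agent.helper85.SN.cMON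
import Pool.Agent.helper85.SN.dCOM
import Pool.Agent.helper85.SN.dHOP
import Pool.Agent.helper85.SN.xTCH
import Pool.Agent.helper87.SN.CNJ
import Pool.Agent.helper87.SN.dPOT
import Pool.Agent.helper89.SN.cJAC
import Pool.Agent.helper90.SN.APSD
import Pool.Agent.helper90.SN.MMOA
import Pool.Agent.helper90.SN.cPD
import Pool.Agent.helper90.SN.dXA
import Pool.Agent.helper92.SN.cLIM
import Pool.Agent.helper93.SN.aDER
import Pool.Agent.helper93.SN.cRMX
import Pool.Agent.helper96.SN.TAY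
import Pool.Agent.helper97.SN.PRX
import Pool.Agent.helper97.SN.VAD
import Pool.Agent.helper98.SN.REC
import Pool.Agent.helper99.SN.LOC
import Pool.Agent.helper99.SN.MLC
import Pool.Agent.helper99.SN.RNK

/-! Assembly of the rows of the specifications `Pool/Agent/helper69/SN/SpecA.lean`, `SpecB.lean`,
`Pool/Agent/helper28/SN/SpecC.lean`, `Pool/Agent/helper40/SN/SpecD.lean` (generated).  The last one is
`dCOR`. -/

open scoped Pointwise ContDiff
open MeasureTheory Set Filter Topology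

namespace Pool.Agent.helper69.SN.W

open Pool.Agent.helper83.SC

theorem loc_lip : loc_lip_stmt := loc_lip_of loc_bdd_of
theorem tendsto_diag : tendsto_diag_stmt := tendsto_diag_of loc_lip
theorem sel_integrable : sel_integrable_stmt := sel_integrable_of ae_argmin_unique_of alexandrov_smooth_of exists_smooth_of loc_lip tendsto_diag
theorem tendsto_A : tendsto_A_stmt := tendsto_A_of ae_argmin_unique_of sel_integrable loc_lip tendsto_diag
theorem A_smooth : A_smooth_stmt := A_smooth_of alexandrov_smooth_of tendsto_A hess_add_of hess_normSq_of continuous_hess_of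
theorem B_smooth : B_smooth_stmt := B_smooth_of mD_polar_of hess_add_of hess_sum_of continuous_hess_of A_smooth
theorem tendsto_B : tendsto_B_stmt := tendsto_B_of tendsto_A
theorem B_le_A : B_le_A_stmt := B_le_A_of mD_le_det_of hess_psd_of hess_sum_of continuous_hess_of exists_smooth_of tendsto_A A_smooth B_smooth tendsto_B
theorem B_nonneg : B_nonneg_stmt := B_nonneg_of mD_nonneg_of hess_psd_of exists_smooth_of B_smooth tendsto_B
theorem B_mono : B_mono_stmt := B_mono_of mD_mono_of hess_psd_of hess_add_of continuous_hess_of exists_smooth_of B_smooth tendsto_B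
theorem aREC : Pool.Agent.helper69.SN.aREC_stmt :=
  @Pool.Agent.helper69.SN.aREC 
theorem aDER : Pool.Agent.helper69.SN.aDER_stmt :=
  @Pool.Agent.helper69.SN.aDER_of 
theorem aCNT : Pool.Agent.helper69.SN.aCNT_stmt :=
  @Pool.Agent.helper69.SN.aCNT 
theorem aHOM : Pool.Agent.helper69.SN.aHOM_stmt :=
  @Pool.Agent.helper69.SN.aHOM 
theorem aCNJ : Pool.Agent.helper69.SN.aCNJ_stmt :=
  @Pool.Agent.helper69.SN.aCNJ 
theorem aZER : Pool.Agent.helper69.SN.aZER_stmt :=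
  @Pool.Agent.helper69.SN.aZER 
theorem aALL : Pool.Agent.helper69.SN.aALL_stmt :=
  @Pool.Agent.helper69.SN.aALL 
theorem aHYP : Pool.Agent.helper69.SN.aHYP_stmt :=
  @Pool.Agent.helper44.SN.aHYP_of 
theorem aEQV : Pool.Agent.helper69.SN.aEQV_stmt :=
  @Pool.Agent.helper44.SN.aEQV_of 
theorem aPSD : Pool.Agent.helper69.SN.aPSD_stmt :=
  @Pool.Agent.helper90.SN.aPSD 
theorem aSUP : Pool.Agent.helper69.SN.aSUP_stmt :=
  @Pool.Agent.helper44.SN.aSUP_of 
theorem aDNN : Pool.Agent.helper69.SN.aDNN_stmt :=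
  @Pool.Agent.helper44.SN.aDNN_of 
theorem aCLO : Pool.Agent.helper69.SN.aCLO_stmt :=
  @Pool.Agent.helper50.SN.CLO aHOM aPSD aSUP
theorem aCL2 : Pool.Agent.helper69.SN.aCL2_stmt :=
  @Pool.Agent.helper69.SN.aCL2 aCNT
theorem aPBD : Pool.Agent.helper69.SN.aPBD_stmt :=
  @Pool.Agent.helper48.SN.aPBD_of aCNT aHOM aEQV aPSD aCL2
theorem aBAR : Pool.Agent.helper69.SN.aBAR_stmt :=
  @Pool.Agent.helper69.SN.aBAR_of aREC aDER aHYP aEQV aCLO aPBD aCL2
theorem aBSM : Pool.Agent.helper69.SN.aBSM_stmt :=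
  @Pool.Agent.helper69.SN.aBSM_of aBAR
theorem aTAY : Pool.Agent.helper69.SN.aTAY_stmt :=
  @Pool.Agent.helper69.SN.aTAY_of aREC aDER aHOM aPSD aSUP aDNN aBAR
theorem aNXT : Pool.Agent.helper69.SN.aNXT_stmt :=
  @Pool.Agent.helper69.SN.aNXT_of aREC aDER aDNN aCLO
theorem aMAX : Pool.Agent.helper69.SN.aMAX_stmt :=
  @Pool.Agent.helper69.SN.aMAX_of aZER
theorem aCNG : Pool.Agent.helper69.SN.aCNG_stmt :=
  @Pool.Agent.helper30.SN.aCNG aCNJ aEQV
theorem aSML : Pool.Agent.helper69.SN.aSML_stmt :=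
  @Pool.Agent.helper69.SN.aSML_of aHYP aDER
theorem aPER : Pool.Agent.helper69.SN.aPER_stmt :=
  @Pool.Agent.helper69.SN.aPER_of aCNG aPBD aCLO
theorem aTRU : Pool.Agent.helper69.SN.aTRU_stmt :=
  @Pool.Agent.helper79.SN.aTRU aCLO aCNG aPER
theorem aRNK : Pool.Agent.helper69.SN.aRNK_stmt :=
  @Pool.Agent.helper69.SN.aRNK 
theorem bCVX : Pool.Agent.helper69.SN.bCVX_stmt :=
  @Pool.Agent.helper69.SN.bCVX_of 
theorem bSCD : Pool.Agent.helper69.SN.bSCD_stmt :=
  @Pool.Agent.helper69.SN.bSCD_of 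
theorem bQUA : Pool.Agent.helper69.SN.bQUA_stmt :=
  @Pool.Agent.helper69.SN.bQUA 
theorem bRMX : Pool.Agent.helper69.SN.bRMX_stmt :=
  @Pool.Agent.helper85.SN.bRMX 
theorem bCLS : Pool.Agent.helper69.SN.bCLS_stmt :=
  @Pool.Agent.helper69.SN.bCLS_of (@Pool.Agent.helper83.SC.hess_psd_of) (@Pool.Agent.helper83.SC.hess_add_of) aCLO
theorem bGLU : Pool.Agent.helper69.SN.bGLU_stmt :=
  @Pool.Agent.helper69.SN.bGLU_of bRMX aCLO
theorem bLGL : Pool.Agent.helper69.SN.bLGL_stmt :=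
  @Pool.Agent.helper69.SN.bLGL_of bCVX bRMX bCLS aCLO
theorem bSUP : Pool.Agent.helper69.SN.bSUP_stmt :=
  @Pool.Agent.helper69.SN.bSUP_of bCLS bGLU
theorem bPER : Pool.Agent.helper69.SN.bPER_stmt :=
  @Pool.Agent.helper69.SN.bPER_of bCLS bSUP
theorem bMXP : Pool.Agent.helper69.SN.bMXP_stmt :=
  @Pool.Agent.helper69.SN.bMXP_of aCLO bSCD
theorem mMOA : Pool.Agent.helper69.SN.mMOA_stmt :=
  @Pool.Agent.helper90.SN.mMOA 
theorem mMOB : Pool.Agent.helper69.SN.mMOB_stmt :=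
  @Pool.Agent.helper21.SN.mMOB 
theorem mMOC : Pool.Agent.helper69.SN.mMOC_stmt :=
  @Pool.Agent.helper69.SN.mMOC 
theorem mRAD : Pool.Agent.helper69.SN.mRAD_stmt :=
  @Pool.Agent.helper69.SN.mRAD 
theorem xPRX : Pool.Agent.helper69.SN.xPRX_stmt :=
  @Pool.Agent.helper69.SN.xPRX 
theorem xLOC : Pool.Agent.helper69.SN.xLOC_stmt :=
  @Pool.Agent.helper69.SN.xLOC 
theorem xCMP : Pool.Agent.helper69.SN.xCMP_stmt :=
  @Pool.Agent.helper81.SN.xCMP xPRX xLOC
theorem xHES : Pool.Agent.helper69.SN.xHES_stmt :=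
  @Pool.Agent.helper69.SN.xHES_of 
theorem xAPC : Pool.Agent.helper69.SN.xAPC_stmt :=
  @Pool.Agent.helper19.SN.xAPC bCLS xPRX xLOC xCMP xHES aTRU aPER
theorem xMLC : Pool.Agent.helper69.SN.xMLC_stmt :=
  @Pool.Agent.helper69.SN.xMLC xAPC aPER mMOB mMOC xPRX bCLS aCLO aCL2
theorem xTCH : Pool.Agent.helper69.SN.xTCH_stmt :=
  @Pool.Agent.helper85.SN.xTCH bPER bLGL bQUA bCVX aPER aBSM aCLO
theorem xBDR : Pool.Agent.helper69.SN.xBDR_stmt :=
  @Pool.Agent.helper69.SN.xBDR_of bPER bCLS xPRX xLOC xTCH aPER aBSM aCLO loc_lip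
theorem xMAS : Pool.Agent.helper69.SN.xMAS_stmt :=
  @Pool.Agent.helper69.SN.xMAS_of (@Pool.Agent.helper83.SC.exists_test) B_smooth B_le_A (@Pool.Agent.helper83.SC.hess_normSq_of) (@Pool.Agent.helper83.SC.hess_add_of) (@Pool.Agent.helper83.SC.continuous_hess_of) (@Pool.Agent.helper83.SC.mD_nonneg_of) (@Pool.Agent.helper83.SC.hess_psd_of)
theorem bEX : Pool.Agent.helper69.SN.bEX_stmt :=
  @Pool.Agent.helper69.SN.bEX_of bPER bCLS xPRX xLOC mMOA mRAD xMLC xBDR xMAS aSML aCL2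
theorem cPD : Pool.Agent.helper28.SN.cPD_stmt :=
  @Pool.Agent.helper28.SN.cPD 
theorem cIBP : Pool.Agent.helper28.SN.cIBP_stmt :=
  @Pool.Agent.helper28.SN.cIBP 
theorem cJAC : Pool.Agent.helper28.SN.cJAC_stmt :=
  @Pool.Agent.helper28.SN.cJAC cPD cIBP
theorem cMDZ : Pool.Agent.helper28.SN.cMDZ_stmt :=
  @Pool.Agent.helper28.SN.cMDZ cPD cJAC
theorem cLOC : Pool.Agent.helper28.SN.cLOC_stmt :=
  @Pool.Agent.helper81.SN.cLOC 
theorem cMCF : Pool.Agent.helper28.SN.cMCF_stmt :=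
  @Pool.Agent.helper28.SN.cMCF cMDZ (@Pool.Agent.helper83.SC.hess_add_of) (@Pool.Agent.helper83.SC.hess_smul_of) (@Pool.Agent.helper83.SC.mD_update_add_of) (@Pool.Agent.helper83.SC.mD_update_smul_of) (@Pool.Agent.helper83.SC.continuous_hess_of) cLOC
theorem cCNT : Pool.Agent.helper28.SN.cCNT_stmt :=
  @Pool.Agent.helper28.SN.cCNT aCNT (@Pool.Agent.helper83.SC.continuous_hess_of)
theorem cMCP : Pool.Agent.helper28.SN.cMCP_stmt :=
  @Pool.Agent.helper28.SN.cMCP cMCF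
theorem cREG : Pool.Agent.helper28.SN.cREG_stmt :=
  @Pool.Agent.helper28.SN.cREG 
theorem cRMX : Pool.Agent.helper28.SN.cRMX_stmt :=
  @Pool.Agent.helper28.SN.cRMX 
theorem cCMP : Pool.Agent.helper28.SN.cCMP_stmt :=
  @Pool.Agent.helper28.SN.cCMP cREG cRMX cLOC cMCP cCNT aCLO aDNN (@Pool.Agent.helper83.SC.hess_psd_of)
theorem cRAD : Pool.Agent.helper28.SN.cRAD_stmt :=
  @Pool.Agent.helper28.SN.cRAD cREG (@Pool.Agent.helper83.SC.hess_psd_of) (@Pool.Agent.helper83.SC.continuous_hess_of)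
theorem cMON : Pool.Agent.helper28.SN.cMON_stmt :=
  @Pool.Agent.helper28.SN.cMON 
theorem cCLN : Pool.Agent.helper28.SN.cCLN_stmt :=
  @Pool.Agent.helper28.SN.cCLN cRAD cCMP cMON cCNT aPSD aDNN
theorem cPRJ : Pool.Agent.helper28.SN.cPRJ_stmt :=
  @Pool.Agent.helper28.SN.cPRJ cPD (@Pool.Agent.helper83.SC.exists_smooth_of)
theorem cVB : Pool.Agent.helper28.SN.cVB_stmt :=
  @Pool.Agent.helper28.SN.cVB cPRJ aRNK (@Pool.Agent.helper83.SC.exists_smooth_of) (@Pool.Agent.helper83.SC.hess_psd_of) B_smooth tendsto_B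
theorem cVAN : Pool.Agent.helper28.SN.cVAN_stmt :=
  @Pool.Agent.helper28.SN.cVAN cVB (@Pool.Agent.helper83.SC.exists_test) (@Pool.Agent.helper83.SC.mD_nonneg_of) (@Pool.Agent.helper83.SC.hess_psd_of) B_smooth tendsto_B (@Pool.Agent.helper83.SC.continuous_hess_of)
theorem cBDD : Pool.Agent.helper28.SN.cBDD_stmt :=
  @Pool.Agent.helper28.SN.cBDD (@Pool.Agent.helper83.SC.exists_test) (@Pool.Agent.helper83.SC.mD_nonneg_of) (@Pool.Agent.helper83.SC.hess_psd_of) B_smooth tendsto_B (@Pool.Agent.helper83.SC.continuous_hess_of)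
theorem cLIM : Pool.Agent.helper28.SN.cLIM_stmt :=
  @Pool.Agent.helper28.SN.cLIM cCLN cVAN cBDD (@Pool.Agent.helper83.SC.mD_nonneg_of) (@Pool.Agent.helper83.SC.hess_psd_of) (@Pool.Agent.helper83.SC.hess_normSq_of) (@Pool.Agent.helper83.SC.continuous_hess_of)
theorem dGEO : Pool.Agent.helper40.SN.dGEO_stmt :=
  @Pool.Agent.helper40.SN.dGEO (@Pool.Agent.helper83.SC.hess_psd_of)
theorem dBND : Pool.Agent.helper40.SN.dBND_stmt :=
  @Pool.Agent.helper40.SN.dBND 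
theorem dLIP : Pool.Agent.helper40.SN.dLIP_stmt :=
  @Pool.Agent.helper40.SN.dLIP 
theorem dZER : Pool.Agent.helper40.SN.dZER_stmt :=
  @Pool.Agent.helper40.SN.dZER (@Pool.Agent.helper83.SC.hess_psd_of) aPSD
theorem dSTR : Pool.Agent.helper40.SN.dSTR_stmt :=
  @Pool.Agent.helper40.SN.dSTR aCNG
theorem dJEN : Pool.Agent.helper40.SN.dJEN_stmt :=
  @Pool.Agent.helper40.SN.dJEN dGEO
theorem dCAP : Pool.Agent.helper40.SN.dCAP_stmt :=
  @Pool.Agent.helper40.SN.dCAP dGEO dSTR dJEN bQUA aCLO (@Pool.Agent.helper83.SC.flat_submodule_of) (@Pool.Agent.helper83.SC.flat_add_of) (@Pool.Agent.helper83.SC.flat_sum_of) (@Pool.Agent.helper83.SC.hess_psd_of) (@Pool.Agent.helper83.SC.hess_add_of) (@Pool.Agent.helper83.SC.hess_smul_of)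
theorem dWQ : Pool.Agent.helper40.SN.dWQ_stmt :=
  @Pool.Agent.helper40.SN.dWQ bPER bCLS dGEO aPSD
theorem dPOT : Pool.Agent.helper40.SN.dPOT_stmt :=
  @Pool.Agent.helper40.SN.dPOT aCLO aPSD bCLS dGEO dBND dLIP dWQ cREG cRMX cLOC (@Pool.Agent.helper83.SC.hess_psd_of) (@Pool.Agent.helper83.SC.hess_add_of) (@Pool.Agent.helper83.SC.hess_smul_of) (@Pool.Agent.helper83.SC.hess_sum_of)
theorem dXQ : Pool.Agent.helper40.SN.dXQ_stmt :=
  @Pool.Agent.helper40.SN.dXQ bPER bCLS bSCD aBSM aMAX aCLO aPSD dGEO (@Pool.Agent.helper83.SC.hess_psd_of) (@Pool.Agent.helper83.SC.hess_add_of) (@Pool.Agent.helper83.SC.hess_smul_of) (@Pool.Agent.helper83.SC.hess_sum_of) (@Pool.Agent.helper83.SC.hess_normSq_of)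
theorem dXA : Pool.Agent.helper40.SN.dXA_stmt :=
  @Pool.Agent.helper40.SN.dXA bEX bCLS aBSM aTAY aDNN aCNT dWQ dGEO
theorem dCOM : Pool.Agent.helper40.SN.dCOM_stmt :=
  @Pool.Agent.helper40.SN.dCOM aCLO bGLU dGEO dWQ dXQ (@Pool.Agent.helper83.SC.hess_psd_of) (@Pool.Agent.helper83.SC.hess_add_of) (@Pool.Agent.helper83.SC.hess_smul_of) (@Pool.Agent.helper83.SC.hess_sum_of)
theorem dCMP : Pool.Agent.helper40.SN.dCMP_stmt :=
  @Pool.Agent.helper40.SN.dCMP cCMP cCNT aDER aDNN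
theorem dMNO : Pool.Agent.helper40.SN.dMNO_stmt :=
  @Pool.Agent.helper40.SN.dMNO aDNN aDER cCNT (@Pool.Agent.helper83.SC.hess_psd_of)
theorem dVAD : Pool.Agent.helper40.SN.dVAD_stmt :=
  @Pool.Agent.helper40.SN.dVAD aHOM aSUP aPSD
theorem dPTT : Pool.Agent.helper40.SN.dPTT_stmt :=
  @Pool.Agent.helper40.SN.dPTT cCNT aDER dGEO dBND dWQ dXQ dXA dCOM dCMP dMNO dVAD
theorem dEND : Pool.Agent.helper40.SN.dEND_stmt :=
  @Pool.Agent.helper40.SN.dEND cCNT aDER (@Pool.Agent.helper83.SC.hess_psd_of) aCLO bCLS dLIP dGEO dBND dWQ dXQ dXA dCOM dCMP dMNO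
theorem dHOP : Pool.Agent.helper40.SN.dHOP_stmt :=
  @Pool.Agent.helper40.SN.dHOP aCLO aNXT dBND dWQ dMNO (@Pool.Agent.helper83.SC.hess_psd_of) (@Pool.Agent.helper83.SC.hess_add_of) (@Pool.Agent.helper83.SC.hess_smul_of)
theorem dBAS : Pool.Agent.helper40.SN.dBAS_stmt :=
  @Pool.Agent.helper40.SN.dBAS cLIM aDNN cCNT
theorem dIND : Pool.Agent.helper40.SN.dIND_stmt :=
  @Pool.Agent.helper40.SN.dIND dZER dCAP dPTT dHOP dBAS dEND dPOT
theorem dNCV : Pool.Agent.helper40.SN.dNCV_stmt :=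
  @Pool.Agent.helper40.SN.dNCV loc_lip
theorem dCOR : Pool.Agent.helper40.SN.dCOR_stmt :=
  @Pool.Agent.helper40.SN.dCOR dIND dNCV cCMP aDER cCNT aCLO aPSD aALL B_smooth (@Pool.Agent.helper83.SC.mD_nonneg_of) (@Pool.Agent.helper83.SC.hess_add_of) (@Pool.Agent.helper83.SC.hess_normSq_of) (@Pool.Agent.helper83.SC.hess_psd_of) (@Pool.Agent.helper83.SC.exists_smooth_of) tendsto_B (@Pool.Agent.helper83.SC.exists_test)

end Pool.Agent.helper69.SN.W
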